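import Pool.Agent.H607R3.BN.Main

/-!
# MP_54820f_ag, Q1: the non-containment statement fails

For every `δ ≥ 0`, every `r ≥ 3` and every `g > (δ + 2)(2 δ + 3)` with `2 r + δ ≤ g - 1`, every curve of
genus `g` with a `g^r_{2r + δ}` has a `g^2_{δ + 4}`; here `e = δ + 4` is below the threshold of Q1.
-/

namespace Pool.Agent.Results.MP_54820f_ag.SmallCliffordNets

open Pool.Agent.H607R3.BN

theorem result :
    (∀ g r δ : ℤ, 3 ≤ r → 0 ≤ δ → 2 * r + δ ≤ g - 1 → (δ + 2) * (2 * δ + 3) < g →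
      rho g r (2 * r + δ) < 0 ∧ rho g 2 (δ + 4) < 0 ∧ δ + 4 ≤ g - 1 ∧
      δ + 4 < (2 * r + δ) - 2 * r + 2 + (r + 3) / 2 ∧
      (locus g r (2 * r + δ)).Nonempty ∧
      locus g r (2 * r + δ) ⊆ locus g 2 (δ + 4)) ∧
    ¬ ∃ g₀ : ℤ, ∀ g r d e : ℤ, g₀ ≤ g → 3 ≤ r → d ≤ g - 1 → e ≤ g - 1 →
      rho g r d < 0 → rho g 2 e < 0 → e < d - 2 * r + 2 + (r + 3) / 2 →
      ¬ locus g r d ⊆ locus g 2 e := by
  have key : ∀ g r δ : ℤ, 3 ≤ r → 0 ≤ δ → 2 * r + δ ≤ g - 1 → (δ + 2) * (2 * δ + 3) < g →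
      rho g r (2 * r + δ) < 0 ∧ rho g 2 (δ + 4) < 0 ∧ δ + 4 ≤ g - 1 ∧
      δ + 4 < (2 * r + δ) - 2 * r + 2 + (r + 3) / 2 ∧
      (locus g r (2 * r + δ)).Nonempty ∧
      locus g r (2 * r + δ) ⊆ locus g 2 (δ + 4) := by
    intro g r δ hr hδ hd hg
    have hg' : (2 * δ + 2 * 2 - 1) * (δ + 2) < g := by
      calc (2 * δ + 2 * 2 - 1) * (δ + 2) = (δ + 2) * (2 * δ + 3) := by ring
        _ < g := hg
    exact ⟨rho_large g r 2 δ le_rfl (by omega) hδ hd hg', rho_small g 2 δ le_rfl hδ hg',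
      by omega, by omega, locus_nonempty g r _ (by omega) (by omega) (by omega),
      locus_subset g r 2 δ (by omega) (by omega) hδ hd hg'⟩
  refine ⟨key, ?_⟩
  rintro ⟨g₀, h⟩
  have h1 := key (max g₀ 7) 3 0 le_rfl le_rfl (by omega) (by omega)
  exact h (max g₀ 7) 3 _ _ (by omega) le_rfl (by omega) h1.2.2.1 h1.1 h1.2.1 h1.2.2.2.1
    h1.2.2.2.2.2

end Pool.Agent.Results.MP_54820f_ag.SmallCliffordNets
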